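import Pool.Agent.K7.H87.Rig.LocB

/-!
# Every finite simple group is rigid relative to its inner automorphisms (MP_cb38be_al, Q1: yes)

Let `K` be a finite simple group, `Λ` a group and `π : K → Λ` a bijection such that for every
`k` in `K` the permutation `π ∘ (x ↦ k x k⁻¹) ∘ π⁻¹` of `Λ` is an automorphism of the group `Λ`.
Then `Λ` is isomorphic to `K`. The classification of the finite simple groups is not used.

Outline of the proof, for `K` not commutative. Let `Γ = Λ ⋊ K`. For a prime `q` let `s ≠ 1` be
central in a Sylow `q`-subgroup of `K`. The fixed points of `s` in `Λ` have the same number as the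
centralizer of `s` in `K`, so `s` centralizes a Sylow `q`-subgroup `Λ_q` of `Λ`. By Frattini's
argument the centralizer of `Λ_q` in `Γ` is mapped onto `K`. A counting argument in a Sylow
`q`-subgroup of `Γ` (using `|Λ|_q ≤ |K|_q`) shows: if `H` is a subgroup of `Γ` that is mapped onto
`K` (covering) and `D` a `q`-subgroup of `Λ` normalized by `H`, then the centralizer of `D` in `H`
is covering. By induction on the order of `H ∩ Λ` the centralizer of `H ∩ Λ` in `H` is covering for
every covering `H`: for `x` in `H ∩ Λ` outside the center `Z` of `H ∩ Λ` the centralizer of `x` in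
`H` is covering and by induction contains a unique minimal covering subgroup `L_x`; the
centralizers `M_x` of the `L_x` in `H ∩ Λ` are self-normalizing and intersect pairwise in `Z`, and
by counting they are equal to `H ∩ Λ`. So the centralizer of `Λ` in `Γ` is covering, all elements
of `K` act on `Λ` by inner automorphisms, and comparing the orders one gets `K ≅ Λ`.
-/

namespace Pool.Agent.Results.MP_cb38be_al.AllFiniteSimpleGroups

open Pool.Agent.K7.H87.Rig

universe u v

/-- The case of a commutative group. -/
lemma comm_case {K : Type u} {Λ : Type v} [Group K] [Finite K] [IsSimpleGroup K] [Group Λ]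
    (π : K ≃ Λ) (hcomm : ∀ a b : K, a * b = b * a) : Nonempty (Λ ≃* K) := by
  let _ : CommGroup K := { ‹Group K› with mul_comm := hcomm }
  have hp : (Nat.card K).Prime := IsSimpleGroup.prime_card
  have : Fact (Nat.card K).Prime := ⟨hp⟩
  exact ⟨mulEquivOfPrimeCardEq (p := Nat.card K) (Nat.card_congr π).symm rfl⟩

lemma noncomm_case {K : Type u} {Λ : Type v} [Group K] [Finite K] [IsSimpleGroup K] [Group Λ]
    (π : K ≃ Λ) (h : ∀ k : K, ∃ ξ : Λ ≃* Λ, ∀ x : K, ξ (π x) = π (k * x * k⁻¹))
    (hcomm : ¬ ∀ a b : K, a * b = b * a) : Nonempty (Λ ≃* K) := by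
  classical
  have hfin : Finite Λ := Finite.of_equiv K π
  have hΛK : Nat.card Λ = Nat.card K := (Nat.card_congr π).symm
  -- `K` is perfect
  have hK : commutator K = ⊤ := by
    rcases (inferInstance : (commutator K).Normal).eq_bot_or_eq_top with h | h
    · exfalso
      apply hcomm
      intro a b
      have h1 : ⁅(⊤ : Subgroup K), (⊤ : Subgroup K)⁆ = ⊥ := h
      rw [Subgroup.commutator_eq_bot_iff_le_centralizer] at h1
      exact ((Subgroup.mem_centralizer_iff.1 (h1 (Subgroup.mem_top a))) b trivial).symm
    · exact h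
  -- the action
  choose ξ hξ using h
  let α : K →* MulAut Λ :=
    { toFun := ξ
      map_one' := by
        ext y
        obtain ⟨x, rfl⟩ := π.surjective y
        rw [hξ]
        simp
      map_mul' := fun k l => by
        ext y
        obtain ⟨x, rfl⟩ := π.surjective y
        show ξ (k * l) (π x) = ξ k (ξ l (π x))
        rw [hξ, hξ, hξ]
        congr 1
        group }
  have hα : ∀ k x, α k (π x) = π (k * x * k⁻¹) := hξ
  have hαinj : Function.Injective α := by
    rw [injective_iff_map_eq_one]
    intro k hk
    have h1 : k ∈ Subgroup.center K := by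
      rw [Subgroup.mem_center_iff]
      intro g
      have h2 := hα k g
      rw [hk] at h2
      have h3 : g = k * g * k⁻¹ := π.injective h2
      rw [eq_mul_inv_iff_mul_eq] at h3
      exact h3
    rcases (inferInstance : (Subgroup.center K).Normal).eq_bot_or_eq_top with h | h
    · rw [h] at h1
      exact Subgroup.mem_bot.1 h1
    · exfalso
      apply hcomm
      intro a b
      have h2 : b ∈ Subgroup.center K := by rw [h]; trivial
      exact (Subgroup.mem_center_iff.1 h2) a
  -- the semidirect product
  let Γ := Λ ⋊[α] K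
  have hΓ : Finite Γ := Finite.of_equiv (Λ × K) SemidirectProduct.equivProd.symm
  let φ : Γ →* K := SemidirectProduct.rightHom
  have hφ : Function.Surjective φ := SemidirectProduct.rightHom_surjective
  let i : Λ →* φ.ker := (SemidirectProduct.inl : Λ →* Γ).codRestrict φ.ker (fun x => by
    show φ (SemidirectProduct.inl x) = 1
    exact SemidirectProduct.rightHom_inl x)
  have hi : Function.Bijective i := by
    constructor
    · intro x y hxy
      exact SemidirectProduct.inl_injective (congrArg Subtype.val hxy)
    · rintro ⟨g, hg⟩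
      have hg' : g.right = 1 := hg
      refine ⟨g.left, Subtype.ext ?_⟩
      show (SemidirectProduct.inl g.left : Γ) = g
      ext
      · simp
      · simp [hg']
  have hcardker : Nat.card φ.ker = Nat.card K := by
    rw [← hΛK]
    exact (Nat.card_congr (Equiv.ofBijective i hi)).symm
  have hS : ∀ q : ℕ, q.Prime → ∃ Q : Sylow q φ.ker,
      Cov φ (Subgroup.centralizer ((Q.map φ.ker.subtype : Subgroup Γ) : Set Γ)) := by
    intro q hq
    have : Fact q.Prime := ⟨hq⟩
    by_cases hqK : q ∣ Nat.card K
    swap
    · obtain ⟨Q⟩ : Nonempty (Sylow q φ.ker) := inferInstance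
      refine ⟨Q, fun k => ⟨SemidirectProduct.inr k, ?_, SemidirectProduct.rightHom_inr k⟩⟩
      have h2 : Nat.card Q ≤ 1 := by
        rw [Q.card_eq_multiplicity, hcardker, Nat.factorization_eq_zero_of_not_dvd hqK, pow_zero]
      have h4 : Subsingleton Q := Finite.card_le_one_iff_subsingleton.1 h2
      rw [Subgroup.mem_centralizer_iff]
      rintro _ ⟨x, hx, rfl⟩
      have h5 : (⟨x, hx⟩ : Q) = 1 := Subsingleton.elim _ _
      have h6 : (x : Γ) = 1 := congrArg (fun z : Q => ((z : φ.ker) : Γ)) h5
      show (x : Γ) * _ = _ * (x : Γ)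
      rw [h6, one_mul, mul_one]
    obtain ⟨P⟩ : Nonempty (Sylow q K) := inferInstance
    have hPcard : Nat.card P = q ^ (Nat.card K).factorization q := P.card_eq_multiplicity
    have hPnt : Nontrivial P := by
      by_contra hns
      rw [not_nontrivial_iff_subsingleton] at hns
      have h1 : Nat.card P = 1 := Nat.card_eq_one_iff_unique.2 ⟨hns, ⟨1⟩⟩
      have h2 : q ∣ Nat.card P := P.dvd_card_of_dvd_card hqK
      rw [h1] at h2
      exact hq.one_lt.ne' (Nat.dvd_one.1 h2)
    have hc := P.isPGroup'.center_nontrivial
    obtain ⟨⟨⟨s, hsP⟩, hsc⟩, hs1⟩ := exists_ne (1 : Subgroup.center P)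
    have hs : s ≠ 1 := fun h => hs1 (Subtype.ext (Subtype.ext h))
    have hscomm : ∀ x ∈ (P : Subgroup K), x * s = s * x := fun x hx =>
      congrArg Subtype.val ((Subgroup.mem_center_iff.1 hsc) ⟨x, hx⟩)
    -- fixed points
    let F : Subgroup Λ := MonoidHom.eqLocus (α s).toMonoidHom (MonoidHom.id Λ)
    have hF : ∀ x, x ∈ F ↔ α s x = x := fun x => Iff.rfl
    have hFC : Nat.card F = Nat.card (Subgroup.centralizer {s}) := by
      refine (Nat.card_congr (π.subtypeEquiv fun x => ?_)).symm
      rw [hF, hα, Subgroup.mem_centralizer_singleton_iff, π.injective.eq_iff,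
        mul_inv_eq_iff_eq_mul]
      exact eq_comm
    have hdvd : q ^ (Nat.card K).factorization q ∣ Nat.card F := by
      rw [hFC, ← hPcard]
      apply Subgroup.card_dvd_of_le
      intro x hx
      rw [Subgroup.mem_centralizer_singleton_iff]
      exact hscomm x hx
    obtain ⟨T, hT⟩ := Sylow.exists_subgroup_card_pow_prime q hdvd
    let f : F →* φ.ker := i.comp F.subtype
    have hf : Function.Injective f := hi.1.comp Subtype.val_injective
    have hTcard : Nat.card (T.map f) = q ^ (Nat.card φ.ker).factorization q := by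
      rw [hcardker, ← hT]
      exact (Nat.card_congr (T.equivMapOfInjective f hf).toEquiv).symm
    let Q₀ : Sylow q φ.ker := Sylow.ofCard (T.map f) hTcard
    refine ⟨Q₀, ?_⟩
    refine Cov.of_normal (cov_normalizer hφ hq Q₀) (normalizer_centralizer _)
      ⟨SemidirectProduct.inr s, ?_, ?_⟩
    · rw [Subgroup.mem_centralizer_iff]
      rintro _ ⟨_, ⟨x, hx, rfl⟩, rfl⟩
      show (SemidirectProduct.inl (x : Λ) : Γ) * SemidirectProduct.inr s =
        SemidirectProduct.inr s * SemidirectProduct.inl (x : Λ)
      have h1 : α s x = x := (hF _).1 x.2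
      refine SemidirectProduct.ext ?_ ?_
      · show (x : Λ) * α 1 1 = 1 * α s x
        rw [h1, map_one, mul_one, one_mul]
      · show 1 * s = s * 1
        rw [one_mul, mul_one]
    · show φ (SemidirectProduct.inr s) ≠ 1
      rw [show φ (SemidirectProduct.inr s) = s from SemidirectProduct.rightHom_inr s]
      exact hs
  have hcard : ∀ q : ℕ, q.Prime → ∀ Q : Sylow q φ.ker,
      Nat.card Q ≤ q ^ (Nat.card K).factorization q := by
    intro q hq Q
    have : Fact q.Prime := ⟨hq⟩
    rw [Q.card_eq_multiplicity, hcardker]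
  have hloc : Loc φ := loc_of hS hcard
  have hcov := thmA hK (Nat.card φ.ker) Γ φ hφ rfl hcardker.le hloc
  -- the action is by inner automorphisms
  have hinner : α.range ≤ (MulAut.conj : Λ →* MulAut Λ).range := by
    rintro _ ⟨k, rfl⟩
    obtain ⟨c, hc, rfl⟩ := hcov k
    refine ⟨c.left⁻¹, ?_⟩
    ext x
    have h1 := (Subgroup.mem_centralizer_iff.1 hc) (i x : Γ) (i x).2
    have h2 : ((SemidirectProduct.inl x : Γ) * c).left = (c * SemidirectProduct.inl x : Γ).left :=
      congrArg SemidirectProduct.left h1
    have h3 : x * c.left = c.left * α c.right x := by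
      have h4 : ((SemidirectProduct.inl x : Γ) * c).left = x * α 1 c.left := rfl
      rw [h4, map_one, MulAut.one_apply] at h2
      exact h2
    show c.left⁻¹ * x * c.left⁻¹⁻¹ = α c.right x
    rw [inv_inv, mul_assoc, h3, inv_mul_cancel_left]
  have e1 : Nat.card α.range = Nat.card K :=
    (Nat.card_congr (MonoidHom.ofInjective hαinj).toEquiv).symm
  have hsurj : Function.Surjective (MulAut.conj : Λ →* MulAut Λ).rangeRestrict :=
    MonoidHom.rangeRestrict_surjective _
  have e2 : Nat.card (MulAut.conj : Λ →* MulAut Λ).range ≤ Nat.card Λ :=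
    Nat.card_le_card_of_surjective _ hsurj
  have e3 : Nat.card α.range ≤ Nat.card (MulAut.conj : Λ →* MulAut Λ).range :=
    Subgroup.card_le_of_le hinner
  have e4 : α.range = (MulAut.conj : Λ →* MulAut Λ).range :=
    Subgroup.eq_of_le_of_card_ge hinner (by omega)
  have e5 : Function.Bijective (MulAut.conj : Λ →* MulAut Λ).rangeRestrict :=
    (Nat.bijective_iff_surjective_and_card _).2 ⟨hsurj, by omega⟩
  exact ⟨(MulEquiv.ofBijective _ e5).trans ((MulEquiv.subgroupCongr e4.symm).trans
    (MonoidHom.ofInjective hαinj).symm)⟩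

/-- Let `K` be a finite simple group (commutative or not), `Λ` any group and `π : K → Λ` a
bijection such that for every inner automorphism `x ↦ k x k⁻¹` of `K` the bijection
`π ∘ (x ↦ k x k⁻¹) ∘ π⁻¹` is an automorphism `ξ` of the group `Λ`. Then `Λ ≅ K`. -/
theorem result (K : Type u) [Group K] [Finite K] [IsSimpleGroup K] (Λ : Type v) [Group Λ]
    (π : K ≃ Λ) (h : ∀ k : K, ∃ ξ : Λ ≃* Λ, ∀ x : K, ξ (π x) = π (k * x * k⁻¹)) :
    Nonempty (Λ ≃* K) := by
  by_cases hcomm : ∀ a b : K, a * b = b * a
  · exact comm_case π hcomm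
  · exact noncomm_case π h hcomm

end Pool.Agent.Results.MP_cb38be_al.AllFiniteSimpleGroups
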